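import Pool.Agent.Run7.h432.LV.Stm

/-!
# Piece TRZ of project LV (helper432)
-/

set_option autoImplicit false

namespace Run7.h862.LV

open Run7.h432.LV Finset

universe u

section

variable {U : Type u} [Ring U] {ι : Type} [DecidableEq ι] {m : ℕ}

theorem del_mem (hVM : S_VM.{u}) (F : (ι → U) → U) (hF : F ∈ V U ι) (a : Fin m → ι) (s : U) :
    del a s F ∈ V U ι := by
  have h : del a s F = ∑ i : Fin m, fun x : ι → U => F (Function.update x (a i) (s * x (a i))) := by
    funext x
    rw [Finset.sum_apply]
    rfl
  rw [h]
  refine AddSubgroup.sum_mem _ fun i _ => ?_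
  have h1 := hVM U ι F hF (fun j => if j = a i then s else 1)
  have h2 : (fun x : ι → U => F fun j => (if j = a i then s else 1) * x j) =
      fun x : ι → U => F (Function.update x (a i) (s * x (a i))) := by
    funext x
    congr 1
    funext j
    by_cases hj : j = a i
    · subst hj; simp
    · simp [hj]
  rw [← h2]
  exact h1

theorem upd_swap (τ : Equiv.Perm ι) (x : ι → U) (c : ι) (v : U) :
    Function.update (x ∘ τ) c v = Function.update x (τ c) v ∘ τ := by
  funext l
  by_cases h : l = c
  · subst h; simp
  · rw [Function.update_of_ne h, Function.comp_apply, Function.comp_apply,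
      Function.update_of_ne (fun h' => h (τ.injective h'))]

theorem alt_same (F : (ι → U) → U) (a : Fin m → ι) (ha : Function.Injective a) (hA : AltB F a) (s : U) :
    AltB (del a s F) a := by
  intro i j hij x
  unfold del
  have h1 : ∀ k, F (Function.update (x ∘ Equiv.swap (a i) (a j)) (a k)
      (s * (x ∘ Equiv.swap (a i) (a j)) (a k))) =
        - F (Function.update x (a (Equiv.swap i j k)) (s * x (a (Equiv.swap i j k)))) := by
    intro k
    have h2 : Equiv.swap (a i) (a j) (a k) = a (Equiv.swap i j k) := by
      rw [Equiv.swap_apply_def, Equiv.swap_apply_def]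
      by_cases h1 : k = i
      · subst h1; simp
      · by_cases h2 : k = j
        · subst h2; simp [h1, fun h => h1 (ha h)]
        · simp [h1, h2, ha.ne h1, ha.ne h2]
    rw [upd_swap, hA i j hij, Function.comp_apply, h2]
  rw [Finset.sum_congr rfl fun k _ => h1 k, Finset.sum_neg_distrib]
  congr 1
  exact Equiv.sum_comp (Equiv.swap i j) fun k => F (Function.update x (a k) (s * x (a k)))

theorem alt_other (F : (ι → U) → U) (a b : Fin m → ι) (hab : ∀ i j, a i ≠ b j) (hB : AltB F b) (s : U) :
    AltB (del a s F) b := by
  intro i j hij x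
  unfold del
  have h1 : ∀ k, F (Function.update (x ∘ Equiv.swap (b i) (b j)) (a k)
      (s * (x ∘ Equiv.swap (b i) (b j)) (a k))) = - F (Function.update x (a k) (s * x (a k))) := by
    intro k
    have h2 : Equiv.swap (b i) (b j) (a k) = a k :=
      Equiv.swap_apply_of_ne_of_ne (hab k i) (hab k j)
    rw [upd_swap, hB i j hij, Function.comp_apply, h2]
  rw [Finset.sum_congr rfl fun k _ => h1 k, Finset.sum_neg_distrib]

theorem comm_diff (F : (ι → U) → U) (a b : Fin m → ι) (hab : ∀ i j, a i ≠ b j) (p q : U) (x : ι → U) :
    del a p (del b q F) x = del b q (del a p F) x := by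
  unfold del
  rw [Finset.sum_comm]
  refine Finset.sum_congr rfl fun k _ => Finset.sum_congr rfl fun i _ => ?_
  rw [Function.update_of_ne (hab i k).symm, Function.update_of_ne (hab i k),
    Function.update_comm (hab i k)]

theorem sub_arg (hVA : S_VA.{u}) (F : (ι → U) → U) (hF : F ∈ V U ι) (x : ι → U) (i : ι) (p q : U) :
    F (Function.update x i (p - q)) = F (Function.update x i p) - F (Function.update x i q) := by
  have h := hVA U ι F hF x i (p - q) q
  rw [sub_add_cancel] at h
  rw [h, add_sub_cancel_right]

theorem comm_same (hVA : S_VA.{u}) (F : (ι → U) → U) (hF : F ∈ V U ι) (a : Fin m → ι)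
    (ha : Function.Injective a) (p q : U) (x : ι → U) :
    del a p (del a q F) x - del a q (del a p F) x = del a (q * p - p * q) F x := by
  set T : U → U → Fin m → Fin m → U := fun p q i k =>
    F (Function.update (Function.update x (a i) (p * x (a i))) (a k)
      (q * Function.update x (a i) (p * x (a i)) (a k))) with hT
  have h1 : ∀ p q, del a p (del a q F) x = ∑ i, ∑ k, T p q i k := fun p q => rfl
  have h2 : ∀ p q i k, i ≠ k → T p q i k = T q p k i := by
    intro p q i k h
    have h' := ha.ne h
    simp only [hT]
    rw [Function.update_of_ne h'.symm, Function.update_of_ne h', Function.update_comm h']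
  have h3 : ∀ p q i, T p q i i = F (Function.update x (a i) (q * p * x (a i))) := by
    intro p q i
    simp only [hT]
    rw [Function.update_self, Function.update_idem, mul_assoc]
  rw [h1, h1, Finset.sum_comm (f := fun i k => T q p i k), ← Finset.sum_sub_distrib]
  unfold del
  refine Finset.sum_congr rfl fun i _ => ?_
  rw [← Finset.sum_sub_distrib, Finset.sum_eq_single i]
  · rw [h3, h3, sub_mul, sub_arg hVA F hF]
  · intro k _ hk
    rw [h2 p q i k hk.symm, sub_self]
  · exact fun h => absurd (Finset.mem_univ i) h

end

theorem t_TRZ (hSYM : S_SYM.{u}) (hVM : S_VM.{u}) (hVA : S_VA.{u}) : S_TRZ.{u} := by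
  intro U _ I _ m hInv hCap hP ι _ F hF a b ha hb hab hA hB s hs x hxa hxb
  have hsub : ∀ p q : U, del a (p - q) F x = del a p F x - del a q F x := by
    intro p q
    unfold del
    rw [← Finset.sum_sub_distrib]
    refine Finset.sum_congr rfl fun i _ => ?_
    rw [sub_mul, sub_arg hVA F hF]
  have h0 : del a 0 F x = 0 := by
    have := hsub 0 0
    rwa [sub_self, sub_self] at this
  have hneg : ∀ p : U, del a (-p) F x = - del a p F x := by
    intro p
    have := hsub 0 p
    rwa [zero_sub, h0, zero_sub] at this
  have hadd : ∀ p q : U, del a (p + q) F x = del a p F x + del a q F x := by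
    intro p q
    have := hsub p (-q)
    rwa [sub_neg_eq_add, hneg, sub_neg_eq_add] at this
  have hc : ∀ p ∈ I, ∀ q ∈ I, del a (q * p - p * q) F x = 0 := by
    intro p hp q hq
    rw [← comm_same hVA F hF a ha p q x, sub_eq_zero]
    have e1 : del a p (del a q F) x = del a p (del b q F) x := by
      unfold del
      refine Finset.sum_congr rfl fun i _ => ?_
      refine hSYM U I m hInv hCap ι F hF a b ha hb hab hA hB q _ (fun k => ?_) (fun k => ?_)
      · by_cases h : a k = a i
        · rw [h, Function.update_self]; exact I.mul_mem_left _ (hxa i)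
        · rw [Function.update_of_ne h]; exact hxa k
      · rw [Function.update_of_ne (hab i k).symm]; exact hxb k
    rw [e1, comm_diff F a b hab]
    exact (hSYM U I m hInv hCap ι (del a p F) (del_mem hVM F hF a p) a b ha hb hab
      (alt_same F a ha hA p) (alt_other F a b hab hB p) q x hxa hxb).symm
  refine AddSubgroup.closure_induction (p := fun s _ => del a s F x = 0) ?_ h0 ?_ ?_ (hP s hs)
  · rintro _ ⟨q, hq, p, hp, rfl⟩
    exact hc p hp q hq
  · intro p q _ _ h1 h2
    rw [hadd, h1, h2, add_zero]
  · intro p _ h1
    rw [hneg, h1, neg_zero]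

end Run7.h862.LV
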