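import Pool.Agent.Run7.h432.LV.Stm

/-!
# Piece NH of project LV (helper432), second copy: Nagata-Higman for an idempotent ideal
-/

set_option autoImplicit false

namespace Run7.h862.LV

open Run7.h432.LV Finset

universe u

theorem t_NH (hLIN : S_LIN.{u}) : S_NH.{u} := by
  intro U _ I _ hI m
  induction m with
  | zero =>
    intro _ A _ hA
    have h1 : (1 : U) ∈ A := by simpa using hA 0 I.zero_mem
    intro x _
    simpa using A.mul_mem_left x h1
  | succ m ih =>
    intro hInv A hAt hA
    have hInv' : Inv U m := fun n h0 hn => hInv n h0 (hn.trans (Nat.le_succ m))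
    have hlin : ∀ x ∈ I, ∀ y ∈ I, ∑ i ∈ range (m + 1), x ^ i * y * x ^ (m - i) ∈ A := by
      intro x hx y hy
      have := hLIN U I A (m + 1) hInv (Nat.succ_pos m) hA x hx y hy
      simpa using this
    -- the main identity
    have key : ∀ x ∈ I, ∀ z ∈ I, ∀ y ∈ I, x ^ m * z * y ^ m ∈ A := by
      intro x hx z hz y hy
      have h1 : ∑ i ∈ range (m + 1), ∑ j ∈ range (m + 1), x ^ i * (z * y ^ j) * x ^ (m - i) * y ^ (m - j) ∈ A := by
        rw [Finset.sum_comm]
        refine A.sum_mem fun j _ => ?_
        rw [← Finset.sum_mul]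
        exact A.mul_mem_right _ (hlin x hx _ (I.mul_mem_right _ hz))
      have h2 : ∀ i ∈ range m, ∑ j ∈ range (m + 1), x ^ i * (z * y ^ j) * x ^ (m - i) * y ^ (m - j) ∈ A := by
        intro i hi
        have hxi : x ^ (m - i) ∈ I := by
          have : m - i = (m - i - 1) + 1 := by
            have := Finset.mem_range.1 hi; omega
          rw [this, pow_succ]
          exact I.mul_mem_left _ hx
        have h3 : ∑ j ∈ range (m + 1), x ^ i * (z * y ^ j) * x ^ (m - i) * y ^ (m - j) =
            x ^ i * z * ∑ j ∈ range (m + 1), y ^ j * x ^ (m - i) * y ^ (m - j) := by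
          rw [Finset.mul_sum]
          refine Finset.sum_congr rfl fun j _ => ?_
          simp only [mul_assoc]
        rw [h3]
        exact A.mul_mem_left _ (hlin y hy _ hxi)
      rw [Finset.sum_range_succ] at h1
      have h4 : ∑ j ∈ range (m + 1), x ^ m * (z * y ^ j) * x ^ (m - m) * y ^ (m - j) ∈ A := by
        have h5 := A.sum_mem h2
        have h6 := A.sub_mem h1 h5
        rwa [add_sub_cancel_left] at h6
      have h5 : ∑ j ∈ range (m + 1), x ^ m * (z * y ^ j) * x ^ (m - m) * y ^ (m - j) =
          ((m + 1 : ℕ) : U) * (x ^ m * z * y ^ m) := by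
        rw [Finset.sum_congr rfl (g := fun _ => x ^ m * z * y ^ m)]
        · rw [Finset.sum_const, Finset.card_range, nsmul_eq_mul]
        · intro j hj
          have hj' : j + (m - j) = m := by have := Finset.mem_range.1 hj; omega
          rw [Nat.sub_self, pow_zero, mul_one]
          simp only [mul_assoc]
          rw [← pow_add, hj']
      rw [h5] at h4
      obtain ⟨v, hv⟩ := hInv (m + 1) (Nat.succ_pos m) le_rfl
      rw [← hv] at h4
      have h6 := A.mul_mem_left (↑v⁻¹ : U) h4
      rwa [Units.inv_mul_cancel_left] at h6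
    -- first step
    let A₁ : Ideal U :=
      { carrier := {c | ∀ x ∈ I, ∀ z ∈ I, x ^ m * z * c ∈ A}
        add_mem' := fun {c d} hc hd x hx z hz => by
          rw [mul_add]; exact A.add_mem (hc x hx z hz) (hd x hx z hz)
        zero_mem' := fun x _ z _ => by rw [mul_zero]; exact A.zero_mem
        smul_mem' := fun r c hc x hx z hz => by
          rw [smul_eq_mul, ← mul_assoc, mul_assoc (x ^ m)]
          exact hc x hx (z * r) (I.mul_mem_right _ hz) }
    have hA₁ : A₁.IsTwoSided := ⟨fun {c} b hc x hx z hz => by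
      rw [← mul_assoc]; exact A.mul_mem_right _ (hc x hx z hz)⟩
    have h1 : I ≤ A₁ := ih hInv' A₁ fun s hs x hx z hz => key x hx z hz s hs
    let A₂ : Ideal U :=
      { carrier := {c | ∀ z ∈ I, ∀ w ∈ I, c * z * w ∈ A}
        add_mem' := fun {c d} hc hd x hx z hz => by
          rw [add_mul, add_mul]; exact A.add_mem (hc x hx z hz) (hd x hx z hz)
        zero_mem' := fun x _ z _ => by rw [zero_mul, zero_mul]; exact A.zero_mem
        smul_mem' := fun r c hc x hx z hz => by
          rw [smul_eq_mul, mul_assoc, mul_assoc, ← mul_assoc c]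
          exact A.mul_mem_left _ (hc x hx z hz) }
    have hA₂ : A₂.IsTwoSided := ⟨fun {c} b hc x hx z hz => by
      rw [mul_assoc c]; exact hc _ (I.mul_mem_left _ hx) z hz⟩
    have h2 : I ≤ A₂ := ih hInv' A₂ fun s hs z hz w hw => h1 hw s hs z hz
    intro x hx
    refine AddSubgroup.closure_induction (p := fun x _ => x ∈ A) ?_ A.zero_mem
      (fun _ _ _ _ h h' => A.add_mem h h') (fun _ _ h => A.neg_mem h) (hI x hx)
    rintro _ ⟨a, ha, b, hb, rfl⟩
    refine AddSubgroup.closure_induction (p := fun a _ => a * b ∈ A) ?_ ?_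
      (fun _ _ _ _ h h' => ?_) (fun _ _ h => ?_) (hI a ha)
    · rintro _ ⟨c, hc, d, hd, rfl⟩
      exact h2 hc d hd b hb
    · rw [zero_mul]; exact A.zero_mem
    · rw [add_mul]; exact A.add_mem h h'
    · rw [neg_mul]; exact A.neg_mem h

end Run7.h862.LV
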