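import Pool.Agent.Run7.h862.LV.TRZ

/-!
# Piece SYM of project LV (helper432), second copy
-/

set_option autoImplicit false

namespace Run7.h862.LV

open Run7.h432.LV Finset

universe u

section

variable {U : Type u} [Ring U] {ι : Type} [DecidableEq ι]

theorem upd_mem (I : Ideal U) (s : U) (x : ι → U) (l y : ι) (h : x y ∈ I) :
    Function.update x l (s * x l) y ∈ I := by
  by_cases hy : y = l
  · subst hy; rw [Function.update_self]; exact I.mul_mem_left _ h
  · rw [Function.update_of_ne hy]; exact h

end

theorem t_SYM (hSTAR : S_STAR.{u}) (hVM : S_VM.{u}) : S_SYM.{u} := by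
  intro U _ I _ m hInv hCap ι _ F hF a b ha hb hab hA hB s x hxa hxb
  have hza : ∀ j, b j ∉ Set.range a := by
    rintro j ⟨i, hi⟩; exact hab i j hi
  have hzb : ∀ k, a k ∉ Set.range b := by
    rintro j ⟨i, hi⟩; exact hab j i hi.symm
  -- the identity (**)
  have key : ∀ j, F (Function.update x (b j) (s * x (b j))) =
      ∑ k, F (Function.update x (a k) (s * x (a k)) ∘ Equiv.swap (a k) (b j)) := by
    intro j
    have h1 := hSTAR U I m hInv hCap ι (del a s F) (del_mem hVM F hF a s) a ha
      (alt_same F a ha hA s) (b j) (hza j) x hxa (hxb j)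
    have h2 : F (Function.update x (b j) (s * x (b j))) =
        ∑ i, F (Function.update x (b j) (s * x (b j)) ∘ Equiv.swap (a i) (b j)) :=
      hSTAR U I m hInv hCap ι F hF a ha hA (b j) (hza j) _
        (fun i => upd_mem I s x _ _ (hxa i)) (upd_mem I s x _ _ (hxb j))
    have h3 : ∀ k, F (Function.update x (a k) (s * x (a k))) =
        ∑ i, F (Function.update x (a k) (s * x (a k)) ∘ Equiv.swap (a i) (b j)) := fun k =>
      hSTAR U I m hInv hCap ι F hF a ha hA (b j) (hza j) _
        (fun i => upd_mem I s x _ _ (hxa i)) (upd_mem I s x _ _ (hxb j))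
    have h4 : ∀ i, del a s F (x ∘ Equiv.swap (a i) (b j)) =
        ∑ k, (F (Function.update x (a k) (s * x (a k)) ∘ Equiv.swap (a i) (b j)) +
          if k = i then F (Function.update x (b j) (s * x (b j)) ∘ Equiv.swap (a i) (b j)) -
            F (Function.update x (a i) (s * x (a i)) ∘ Equiv.swap (a i) (b j)) else 0) := by
      intro i
      unfold del
      refine Finset.sum_congr rfl fun k _ => ?_
      rw [upd_swap, Function.comp_apply]
      by_cases hk : k = i
      · subst hk
        rw [if_pos rfl, Equiv.swap_apply_left]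
        abel
      · rw [if_neg hk, Equiv.swap_apply_of_ne_of_ne (ha.ne hk) (hab k j), add_zero]
    rw [Finset.sum_congr rfl fun i _ => h4 i] at h1
    have h5 : ∀ i : Fin m, (∑ k, (F (Function.update x (a k) (s * x (a k)) ∘ Equiv.swap (a i) (b j)) +
          if k = i then F (Function.update x (b j) (s * x (b j)) ∘ Equiv.swap (a i) (b j)) -
            F (Function.update x (a i) (s * x (a i)) ∘ Equiv.swap (a i) (b j)) else 0)) =
        (∑ k, F (Function.update x (a k) (s * x (a k)) ∘ Equiv.swap (a i) (b j))) +
          (F (Function.update x (b j) (s * x (b j)) ∘ Equiv.swap (a i) (b j)) -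
            F (Function.update x (a i) (s * x (a i)) ∘ Equiv.swap (a i) (b j))) := by
      intro i
      rw [Finset.sum_add_distrib]
      congr 1
      rw [Finset.sum_ite_eq' Finset.univ i, if_pos (Finset.mem_univ i)]
    rw [Finset.sum_congr rfl fun i _ => h5 i, Finset.sum_add_distrib, Finset.sum_comm,
      Finset.sum_sub_distrib, ← h2, ← Finset.sum_congr rfl fun k _ => h3 k] at h1
    have h6 : del a s F x = ∑ k, F (Function.update x (a k) (s * x (a k))) := rfl
    rw [h6] at h1
    have h7 : F (Function.update x (b j) (s * x (b j))) -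
      ∑ i, F (Function.update x (a i) (s * x (a i)) ∘ Equiv.swap (a i) (b j)) = 0 := by
      have := h1.symm
      rwa [add_eq_left] at this
    exact sub_eq_zero.1 h7
  have h8 : ∀ k, F (Function.update x (a k) (s * x (a k))) =
      ∑ j, F (Function.update x (a k) (s * x (a k)) ∘ Equiv.swap (a k) (b j)) := by
    intro k
    rw [hSTAR U I m hInv hCap ι F hF b hb hB (a k) (hzb k) _
        (fun i => upd_mem I s x _ _ (hxb i)) (upd_mem I s x _ _ (hxa k))]
    exact Finset.sum_congr rfl fun j _ => by rw [Equiv.swap_comm]
  have h9 : del b s F x = ∑ j, F (Function.update x (b j) (s * x (b j))) := rfl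
  have h10 : del a s F x = ∑ k, F (Function.update x (a k) (s * x (a k))) := rfl
  rw [h9, h10, Finset.sum_congr rfl fun j _ => key j, Finset.sum_comm]
  exact Finset.sum_congr rfl fun k _ => h8 k

end Run7.h862.LV
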